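import Pool.Agent.W485.QL.Stm

/-! The limit homeomorphism. -/

set_option autoImplicit false

open Filter Topology Metric
open scoped NNReal

namespace Pool.Agent.W579.QL

open Pool.Agent.W485.QL

variable {E : Set ℝ} {l : ℕ → ℝ} {h : ℕ → ℂ → ℂ}

lemma h_lip (hs : Sys E l h) (k : ℕ) : LipschitzWith 2 (h k) := by
  refine LipschitzWith.of_dist_le_mul fun z z' => ?_
  rw [dist_eq_norm, dist_eq_norm]
  have h1 := hs.lip k z z'
  have h2 : ‖h k z - h k z'‖ ≤ ‖(h k z - h k z') - (z - z')‖ + ‖z - z'‖ := by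
    have := norm_add_le ((h k z - h k z') - (z - z')) (z - z')
    rwa [sub_add_cancel] at this
  have h3 := norm_nonneg (z - z')
  have h4 : ((2 : ℝ≥0) : ℝ) = 2 := rfl
  rw [h4]
  linarith

lemma G_cont (hs : Sys E l h) (n : ℕ) : Continuous (G h n) := by
  induction n with
  | zero => exact continuous_id
  | succ n ih => exact ih.comp (h_lip hs n).continuous

lemma h_surj (hs : Sys E l h) (k : ℕ) : Function.Surjective (h k) := by
  intro w
  have hc : ContractingWith (1 / 10 : ℝ≥0) (fun z : ℂ => w - (h k z - z)) := by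
    refine ⟨by rw [← NNReal.coe_lt_coe]; norm_num, ?_⟩
    refine LipschitzWith.of_dist_le_mul fun z z' => ?_
    rw [dist_eq_norm, dist_eq_norm]
    have h1 := hs.lip k z z'
    have h2 : w - (h k z - z) - (w - (h k z' - z')) = -((h k z - h k z') - (z - z')) := by ring
    rw [h2, norm_neg]
    have h4 : ((1 / 10 : ℝ≥0) : ℝ) = 1 / 10 := by norm_num
    rw [h4]
    exact h1
  refine ⟨ContractingWith.fixedPoint _ hc, ?_⟩
  have h1 := hc.fixedPoint_isFixedPt
  unfold Function.IsFixedPt at h1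
  set z := ContractingWith.fixedPoint _ hc with hz
  have h2 : w - (h k z - z) = z := h1
  linear_combination (-1 : ℂ) * h2

lemma G_surj (hs : Sys E l h) (n : ℕ) : Function.Surjective (G h n) := by
  induction n with
  | zero => exact Function.surjective_id
  | succ n ih => exact ih.comp (h_surj hs n)

lemma l_anti (hs : Sys E l h) : Antitone l := by
  refine antitone_nat_of_succ_le fun k => ?_
  have h1 := hs.lsucc k
  have h2 := hs.lpos k
  linarith

lemma l_le (hs : Sys E l h) (n : ℕ) : l n ≤ (1 / 16) ^ n := by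
  induction n with
  | zero => rw [hs.l0]; simp
  | succ n ih =>
    have h1 := hs.lsucc n
    rw [pow_succ]
    linarith

lemma exists_scale (hs : Sys E l h) {r : ℝ} (hr : 0 < r) (hr1 : r < 1) :
    ∃ n, l (n + 1) ≤ r ∧ r < l n := by
  have hex : ∃ m, l m ≤ r := by
    obtain ⟨m, hm⟩ := exists_pow_lt_of_lt_one hr (show (1 / 16 : ℝ) < 1 by norm_num)
    exact ⟨m, (l_le hs m).trans hm.le⟩
  classical
  have h1 := Nat.find_spec hex
  have h2 : Nat.find hex ≠ 0 := by
    intro h0
    rw [h0, hs.l0] at h1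
    linarith
  obtain ⟨n, hn⟩ := Nat.exists_eq_succ_of_ne_zero h2
  refine ⟨n, ?_, ?_⟩
  · rw [hn] at h1
    exact h1
  · have h3 := Nat.find_min hex (m := n) (by omega)
    exact not_le.1 h3

theorem t_Lim (E : Set ℝ) (l : ℕ → ℝ) (h : ℕ → ℂ → ℂ) (hs : Sys E l h)
    (hF : Pool.Agent.W485.QL.Fin E l h) : SLimit E := by
  have hcau : ∀ z, CauchySeq (fun N => G h N z) := by
    intro z
    refine cauchySeq_of_le_tendsto_0' (fun n => (1 / 2 : ℝ) ^ n) ?_
      (tendsto_pow_atTop_nhds_zero_of_lt_one (by norm_num) (by norm_num))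
    intro n N hnN
    rw [dist_comm, dist_eq_norm]
    exact hF.cau n N z hnN
  choose f hf using fun z => cauchySeq_tendsto_of_complete (hcau z)
  have hfG : ∀ n z, ‖f z - G h n z‖ ≤ (1 / 2) ^ n := by
    intro n z
    have h1 : Tendsto (fun N => ‖G h N z - G h n z‖) atTop (𝓝 ‖f z - G h n z‖) :=
      ((hf z).sub_const _).norm
    refine le_of_tendsto h1 ?_
    filter_upwards [eventually_ge_atTop n] with N hN
    exact hF.cau n N z hN
  have hunif : TendstoUniformly (fun N => G h N) f atTop := by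
    rw [Metric.tendstoUniformly_iff]
    intro ε hε
    have h1 := (tendsto_pow_atTop_nhds_zero_of_lt_one (show (0 : ℝ) ≤ 1 / 2 by norm_num)
      (by norm_num)).eventually (gt_mem_nhds hε)
    filter_upwards [h1] with N hN z
    rw [dist_eq_norm]
    exact lt_of_le_of_lt (hfG N z) hN
  have hfc : Continuous f := hunif.continuous (Frequently.of_forall fun N => G_cont hs N)
  have hdisp : ∀ z, ‖f z - z‖ ≤ 1 / 10 := by
    intro z
    have h1 : Tendsto (fun N => ‖G h N z - z‖) atTop (𝓝 ‖f z - z‖) := ((hf z).sub_const _).norm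
    exact le_of_tendsto h1 (Eventually.of_forall fun N => hF.disp N z)
  have hlim : ∀ p q, Tendsto (fun N => ‖G h N q - G h N p‖) atTop (𝓝 ‖f q - f p‖) := fun p q =>
    ((hf q).sub (hf p)).norm
  have hratio : ∀ n (p q q' : ℂ), ‖q - p‖ = ‖q' - p‖ → l (n + 1) ≤ ‖q - p‖ → ‖q - p‖ < l n →
      ‖f q - f p‖ ≤ 16 * ‖f q' - f p‖ := by
    intro n p q q' h1 h2 h3
    refine le_of_tendsto_of_tendsto (hlim p q) ((hlim p q').const_mul 16) ?_
    filter_upwards [eventually_ge_atTop (n + 1)] with N hN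
    exact hF.ratio n N p q q' hN h1 h2 h3
  have hlow : ∀ n (p q : ℂ), l (n + 1) ≤ ‖q - p‖ → ‖q - p‖ < l n →
      1 / 4 * ‖q - p‖ ≤ ‖f q - f p‖ := by
    intro n p q h2 h3
    refine ge_of_tendsto (hlim p q) ?_
    filter_upwards [eventually_ge_atTop (n + 1)] with N hN
    exact hF.low n N p q hN h2 h3
  have hbig : ∀ n (p q : ℂ), p.re ∈ E → l (n + 1) ≤ ‖q - p‖ → ‖q - p‖ < l n →
      1 / 4 * (1 + 1 / 100000) ^ n * ‖q - p‖ ≤ ‖f q - f p‖ := by
    intro n p q h1 h2 h3
    refine ge_of_tendsto (hlim p q) ?_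
    filter_upwards [eventually_ge_atTop (n + 1)] with N hN
    exact hF.big n N p q hN h1 h2 h3
  have hlow' : ∀ p q : ℂ, 1 / 4 * ‖q - p‖ ≤ ‖f q - f p‖ := by
    intro p q
    rcases eq_or_ne q p with h0 | h0
    · subst h0
      simp
    · have hpos : 0 < ‖q - p‖ := norm_pos_iff.2 (sub_ne_zero.2 h0)
      rcases lt_or_ge ‖q - p‖ 1 with h1 | h1
      · obtain ⟨n, hn1, hn2⟩ := exists_scale hs hpos h1
        exact hlow n p q hn1 hn2
      · have h2 := hdisp p
        have h3 := hdisp q
        have h4 : ‖q - p‖ ≤ ‖f q - f p‖ + ‖f q - q‖ + ‖f p - p‖ := by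
          have e : q - p = (f q - f p) - (f q - q) + (f p - p) := by ring
          calc ‖q - p‖ = ‖(f q - f p) - (f q - q) + (f p - p)‖ := by rw [← e]
            _ ≤ ‖(f q - f p) - (f q - q)‖ + ‖f p - p‖ := norm_add_le _ _
            _ ≤ ‖f q - f p‖ + ‖f q - q‖ + ‖f p - p‖ := by
                gcongr
                exact norm_sub_le _ _
        linarith
  have hanti : AntilipschitzWith 4 f := by
    refine AntilipschitzWith.of_le_mul_dist fun q p => ?_
    rw [dist_eq_norm, dist_eq_norm]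
    have h1 := hlow' p q
    have h4 : ((4 : ℝ≥0) : ℝ) = 4 := rfl
    rw [h4]
    linarith
  have hsurj : Function.Surjective f := by
    intro w
    choose z hz using fun N => G_surj hs N w
    have hzb : ∀ N, z N ∈ closedBall w (1 / 10) := by
      intro N
      rw [mem_closedBall, dist_eq_norm, norm_sub_rev]
      have := hF.disp N (z N)
      rwa [hz N] at this
    obtain ⟨z0, _, φ, hφ, hlimz⟩ := (isCompact_closedBall w (1 / 10)).tendsto_subseq hzb
    refine ⟨z0, ?_⟩
    have h1 : Tendsto (fun N => f (z (φ N))) atTop (𝓝 (f z0)) := (hfc.tendsto z0).comp hlimz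
    have h2 : Tendsto (fun N => f (z (φ N))) atTop (𝓝 w) := by
      rw [tendsto_iff_norm_sub_tendsto_zero]
      have h3 : Tendsto (fun N => (1 / 2 : ℝ) ^ (φ N)) atTop (𝓝 0) :=
        (tendsto_pow_atTop_nhds_zero_of_lt_one (by norm_num) (by norm_num)).comp
          hφ.tendsto_atTop
      refine squeeze_zero (fun N => norm_nonneg _) (fun N => ?_) h3
      have h4 := hfG (φ N) (z (φ N))
      rwa [hz (φ N)] at h4
    exact tendsto_nhds_unique h1 h2
  let e : ℂ ≃ ℂ := Equiv.ofBijective f ⟨hanti.injective, hsurj⟩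
  have hinv : Function.RightInverse e.symm f := fun w => e.apply_symm_apply w
  have hinvc : Continuous e.symm := (hanti.to_rightInverse hinv).continuous
  refine ⟨⟨e, hfc, hinvc⟩, ?_, ?_⟩
  · intro x y z hyz hy1
    show dist (f y) (f x) ≤ 16 * dist (f z) (f x)
    rw [dist_eq_norm, dist_eq_norm]
    rw [dist_eq_norm, dist_eq_norm] at hyz
    rw [dist_eq_norm] at hy1
    rcases eq_or_ne y x with h0 | h0
    · subst h0
      have : z = y := by
        rw [sub_self, norm_zero] at hyz
        exact sub_eq_zero.1 (norm_eq_zero.1 hyz.symm)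
      subst this
      simp
    · have hpos : 0 < ‖y - x‖ := norm_pos_iff.2 (sub_ne_zero.2 h0)
      obtain ⟨n, hn1, hn2⟩ := exists_scale hs hpos hy1
      exact hratio n x y z hyz hn1 hn2
  · intro K
    obtain ⟨n0, hn0⟩ := pow_unbounded_of_one_lt (4 * K)
      (show (1 : ℝ) < 1 + 1 / 100000 by norm_num)
    refine ⟨l n0, hs.lpos n0, ?_⟩
    intro p q hp hq
    show K * dist q p ≤ dist (f q) (f p)
    rw [dist_eq_norm, dist_eq_norm]
    rw [dist_eq_norm] at hq
    rcases eq_or_ne q p with h0 | h0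
    · subst h0
      simp
    · have hpos : 0 < ‖q - p‖ := norm_pos_iff.2 (sub_ne_zero.2 h0)
      have hl1 : l n0 ≤ 1 := by
        have := l_anti hs (Nat.zero_le n0)
        rwa [hs.l0] at this
      obtain ⟨n, hn1, hn2⟩ := exists_scale hs hpos (lt_of_lt_of_le hq hl1)
      have hnn : n0 ≤ n := by
        by_contra hcon
        push Not at hcon
        have := l_anti hs (show n + 1 ≤ n0 by omega)
        linarith
      have h1 := hbig n p q hp hn1 hn2
      have h2 : (1 + 1 / 100000 : ℝ) ^ n0 ≤ (1 + 1 / 100000) ^ n :=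
        pow_le_pow_right₀ (by norm_num) hnn
      have h3 : K ≤ 1 / 4 * (1 + 1 / 100000) ^ n := by linarith
      exact (mul_le_mul_of_nonneg_right h3 hpos.le).trans h1

end Pool.Agent.W579.QL
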